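import Pool.Agent.Helper93.FZ.St

/-! # FZ MODULE GAU -/

set_option autoImplicit false

namespace Pool.Agent.Helper36.FZ

open Finset
open Pool.Agent.Helper93.FZ

private theorem step {n : ℕ} (A B C X Y Z : Fin n → Fin n → ℝ) (a b : Fin n → ℝ)
    (h : ∀ r c, (∑ s, B c s * C s r * (X r c + Y c s + Z s r)) + a r - b c = 1) :
    ∑ r, ∑ c, A r c * (a r - b c) =
      (∑ r, ∑ c, ∑ s, (A r c * B c s * C s r * (X r c + Y c s + Z s r)) * (a r - b c)) +
      ∑ r, ∑ c, A r c * (a r - b c) ^ 2 := by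
  rw [← sum_add_distrib]
  refine sum_congr rfl fun r _ => ?_
  rw [← sum_add_distrib]
  refine sum_congr rfl fun c _ => ?_
  have h1 : ∑ s, (A r c * B c s * C s r * (X r c + Y c s + Z s r)) * (a r - b c) =
      A r c * (a r - b c) * ∑ s, B c s * C s r * (X r c + Y c s + Z s r) := by
    rw [mul_sum]
    refine sum_congr rfl fun s _ => ?_
    ring
  rw [h1]
  linear_combination (-(A r c * (a r - b c))) * h r c

private theorem zero_of {n : ℕ} (A : Fin n → Fin n → ℝ) (hA : ∀ i j, 0 < A i j)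
    (G : Fin n → Fin n → ℝ) (h : ∑ r, ∑ c, A r c * G r c ^ 2 = 0) (r c : Fin n) : G r c = 0 := by
  have h1 := (sum_eq_zero_iff_of_nonneg (s := (univ : Finset (Fin n)))
    (f := fun r => ∑ c, A r c * G r c ^ 2)
    (fun r _ => sum_nonneg fun c _ => mul_nonneg (hA r c).le (sq_nonneg _))).1 h r (mem_univ r)
  have h2 := (sum_eq_zero_iff_of_nonneg (s := (univ : Finset (Fin n)))
    (f := fun c => A r c * G r c ^ 2)
    (fun c _ => mul_nonneg (hA r c).le (sq_nonneg _))).1 h1 c (mem_univ c)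
  rcases mul_eq_zero.1 h2 with h3 | h3
  · exact absurd h3 (hA r c).ne'
  · exact pow_eq_zero_iff two_ne_zero |>.1 h3

/-- GAU -/
theorem hGAU : StGAU := by
  intro n k A B C X Y Z u v w hW hA hB hC h1 h2 h3
  obtain ⟨a, ha⟩ : ∃ a : Fin n → ℝ, a = dl A C X Z := ⟨_, rfl⟩
  obtain ⟨b, hb⟩ : ∃ b : Fin n → ℝ, b = dl B A Y X := ⟨_, rfl⟩
  obtain ⟨d, hd⟩ : ∃ d : Fin n → ℝ, d = dl C B Z Y := ⟨_, rfl⟩
  unfold L1 at h1 h2 h3
  rw [← ha, ← hb] at h1
  rw [← hb, ← hd] at h2
  rw [← hd, ← ha] at h3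
  have s1 := step A B C X Y Z a b h1
  have s2 := step B C A Y Z X b d h2
  have s3 := step C A B Z X Y d a h3
  -- the left sides
  have l1 : ∑ r, ∑ c, A r c * (a r - b c) = ∑ r, a r * (n - u r) - ∑ c, b c * (n - v c) := by
    have e1 : ∑ r, ∑ c, A r c * (a r - b c) =
        ∑ r, ∑ c, A r c * a r - ∑ r, ∑ c, A r c * b c := by
      rw [← sum_sub_distrib]
      refine sum_congr rfl fun r _ => ?_
      rw [← sum_sub_distrib]
      exact sum_congr rfl fun c _ => by ring
    rw [e1, sum_comm (f := fun r c => A r c * b c)]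
    congr 1
    · exact sum_congr rfl fun r _ => by rw [← sum_mul, hW.rA, mul_comm]
    · exact sum_congr rfl fun c _ => by rw [← sum_mul, hW.cA, mul_comm]
  have l2 : ∑ c, ∑ s, B c s * (b c - d s) = ∑ c, b c * (n - v c) - ∑ s, d s * (n - w s) := by
    have e1 : ∑ r, ∑ c, B r c * (b r - d c) =
        ∑ r, ∑ c, B r c * b r - ∑ r, ∑ c, B r c * d c := by
      rw [← sum_sub_distrib]
      refine sum_congr rfl fun r _ => ?_
      rw [← sum_sub_distrib]
      exact sum_congr rfl fun c _ => by ring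
    rw [e1, sum_comm (f := fun r c => B r c * d c)]
    congr 1
    · exact sum_congr rfl fun r _ => by rw [← sum_mul, hW.cB, mul_comm]
    · exact sum_congr rfl fun c _ => by rw [← sum_mul, hW.sB, mul_comm]
  have l3 : ∑ s, ∑ r, C s r * (d s - a r) = ∑ s, d s * (n - w s) - ∑ r, a r * (n - u r) := by
    have e1 : ∑ r, ∑ c, C r c * (d r - a c) =
        ∑ r, ∑ c, C r c * d r - ∑ r, ∑ c, C r c * a c := by
      rw [← sum_sub_distrib]
      refine sum_congr rfl fun r _ => ?_
      rw [← sum_sub_distrib]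
      exact sum_congr rfl fun c _ => by ring
    rw [e1, sum_comm (f := fun r c => C r c * a c)]
    congr 1
    · exact sum_congr rfl fun r _ => by rw [← sum_mul, hW.sC, mul_comm]
    · exact sum_congr rfl fun c _ => by rw [← sum_mul, hW.rC, mul_comm]
  -- the triple sums
  have t2 : ∑ c, ∑ s, ∑ r, (B c s * C s r * A r c * (Y c s + Z s r + X r c)) * (b c - d s) =
      ∑ r, ∑ c, ∑ s, (A r c * B c s * C s r * (X r c + Y c s + Z s r)) * (b c - d s) := by
    rw [sum_comm (f := fun r c =>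
      ∑ s, (A r c * B c s * C s r * (X r c + Y c s + Z s r)) * (b c - d s))]
    refine sum_congr rfl fun c _ => ?_
    rw [sum_comm]
    exact sum_congr rfl fun r _ => sum_congr rfl fun s _ => by ring
  have t3 : ∑ s, ∑ r, ∑ c, (C s r * A r c * B c s * (Z s r + X r c + Y c s)) * (d s - a r) =
      ∑ r, ∑ c, ∑ s, (A r c * B c s * C s r * (X r c + Y c s + Z s r)) * (d s - a r) := by
    rw [sum_comm]
    refine sum_congr rfl fun r _ => ?_
    rw [sum_comm]
    exact sum_congr rfl fun c _ => sum_congr rfl fun s _ => by ring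
  have t0 : (∑ r, ∑ c, ∑ s, (A r c * B c s * C s r * (X r c + Y c s + Z s r)) * (a r - b c)) +
      (∑ r, ∑ c, ∑ s, (A r c * B c s * C s r * (X r c + Y c s + Z s r)) * (b c - d s)) +
      (∑ r, ∑ c, ∑ s, (A r c * B c s * C s r * (X r c + Y c s + Z s r)) * (d s - a r)) = 0 := by
    rw [← sum_add_distrib, ← sum_add_distrib]
    refine sum_eq_zero fun r _ => ?_
    rw [← sum_add_distrib, ← sum_add_distrib]
    refine sum_eq_zero fun c _ => ?_
    rw [← sum_add_distrib, ← sum_add_distrib]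
    exact sum_eq_zero fun s _ => by ring
  rw [t2] at s2
  rw [t3] at s3
  have n1 : 0 ≤ ∑ r, ∑ c, A r c * (a r - b c) ^ 2 :=
    sum_nonneg fun r _ => sum_nonneg fun c _ => mul_nonneg (hA r c).le (sq_nonneg _)
  have n2 : 0 ≤ ∑ c, ∑ s, B c s * (b c - d s) ^ 2 :=
    sum_nonneg fun r _ => sum_nonneg fun c _ => mul_nonneg (hB r c).le (sq_nonneg _)
  have n3 : 0 ≤ ∑ s, ∑ r, C s r * (d s - a r) ^ 2 :=
    sum_nonneg fun r _ => sum_nonneg fun c _ => mul_nonneg (hC r c).le (sq_nonneg _)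
  have z1 : ∑ r, ∑ c, A r c * (a r - b c) ^ 2 = 0 := by linarith
  have z2 : ∑ c, ∑ s, B c s * (b c - d s) ^ 2 = 0 := by linarith
  have g1 : ∀ r c, a r - b c = 0 := zero_of A hA (fun r c => a r - b c) z1
  have g2 : ∀ c s, b c - d s = 0 := zero_of B hB (fun c s => b c - d s) z2
  -- everything vanishes
  have tot : (∑ r, a r) + (∑ c, b c) + ∑ s, d s = 0 := by
    rw [ha, hb, hd]
    unfold dl
    rw [sum_sub_distrib, sum_sub_distrib, sum_sub_distrib,
      sum_comm (f := fun r s => C s r * Z s r), sum_comm (f := fun c r => A r c * X r c),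
      sum_comm (f := fun s c => B c s * Y c s)]
    ring
  have az : ∀ i, a i = 0 ∧ b i = 0 ∧ d i = 0 := by
    intro i
    have e1 : ∀ j, a j = b i := fun j => by linarith [g1 j i]
    have e2 : ∀ j, b j = b i := fun j => by linarith [g1 i j, g1 i i]
    have e3 : ∀ j, d j = b i := fun j => by linarith [g2 i j]
    rw [sum_congr rfl (fun j _ => e1 j), sum_congr rfl (fun j _ => e2 j),
      sum_congr rfl (fun j _ => e3 j)] at tot
    simp only [sum_const, card_univ, Fintype.card_fin, nsmul_eq_mul] at tot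
    have hn : (0 : ℝ) < n := by
      have : 0 < n := lt_of_le_of_lt (Nat.zero_le _) i.isLt
      exact_mod_cast this
    have hb0 : b i = 0 := by
      have h4 : (n : ℝ) * b i = 0 := by linarith
      rcases mul_eq_zero.1 h4 with h5 | h5
      · exact absurd h5 hn.ne'
      · exact h5
    exact ⟨by rw [e1 i, hb0], hb0, by rw [e3 i, hb0]⟩
  refine ⟨fun r c => ?_, fun c s => ?_, fun s r => ?_, fun r => ?_, fun c => ?_, fun s => ?_⟩
  · have h4 := h1 r c
    rw [(az r).1, (az c).2.1] at h4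
    linarith
  · have h4 := h2 c s
    rw [(az c).2.1, (az s).2.2] at h4
    linarith
  · have h4 := h3 s r
    rw [(az s).2.2, (az r).1] at h4
    linarith
  · have h4 := (az r).1
    rw [ha] at h4
    exact sub_eq_zero.1 h4
  · have h4 := (az c).2.1
    rw [hb] at h4
    exact sub_eq_zero.1 h4
  · have h4 := (az s).2.2
    rw [hd] at h4
    exact sub_eq_zero.1 h4

end Pool.Agent.Helper36.FZ
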